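import Mathlib

/-!
# Beta and gamma sequences of 3-component links: the classification at the level of
Seifert matrices
-/

namespace Pool.Agent.Results.MP_61c315_gt.SeifertTriples

open Matrix

section defs

variable {ι : Type*} [Fintype ι] [DecidableEq ι]

/-- For a Seifert matrix `V` of `G` and the coordinate vector `v` of `[L_j]` in
`H_1(S^3 - G)`, the coordinate vector in `H_1(G)` of the iterated derivative curve
`L_{1^{k+1} j}`, namely `A⁻¹ (V A⁻¹)^k v` with `A = V - Vᵀ`. -/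
noncomputable def curve (V : Matrix ι ι ℤ) (v : ι → ℤ) (k : ℕ) : ι → ℤ :=
  ((V - Vᵀ)⁻¹ * (V * (V - Vᵀ)⁻¹) ^ k) *ᵥ v

/-- The sequence `γ^{k+1} = (A⁻¹ (V A⁻¹)^k v)ᵀ w`, `k ≥ 0`. -/
noncomputable def gammaSeq (V : Matrix ι ι ℤ) (v w : ι → ℤ) (k : ℕ) : ℤ :=
  curve V v k ⬝ᵥ w

/-- The sequence `β^{k+1} = cᵀ V c`, `k ≥ 0`, where `c = A⁻¹ (V A⁻¹)^k v` is the class of
the derivative curve `L_{1^{k+1} j}` in `H_1(G)`: the self-linking number of this class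
with respect to the Seifert form. -/
noncomputable def betaSeq (V : Matrix ι ι ℤ) (v : ι → ℤ) (k : ℕ) : ℤ :=
  curve V v k ⬝ᵥ (V *ᵥ curve V v k)

end defs

/-- A sequence of integers is linearly recurrent if it satisfies a homogeneous linear recurrence
with constant integer coefficients. -/
def IsLinRec (s : ℕ → ℤ) : Prop := ∃ E : LinearRecurrence ℤ, E.IsSolution s

/-! ### Linearly recurrent sequences -/

theorem exists_recurrence_of_endo {R M : Type*} [CommRing R] [AddCommGroup M] [Module R M]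
    [Module.Finite R M] (T : M →ₗ[R] M) (φ : M →ₗ[R] R) (x : M) :
    ∃ E : LinearRecurrence R, E.IsSolution fun k => φ ((T ^ k) x) := by
  obtain ⟨p, hp, hpT⟩ := LinearMap.exists_monic_and_aeval_eq_zero R T
  refine ⟨⟨p.natDegree, fun i => - p.coeff i⟩, ?_⟩
  intro n
  have h1 : (Polynomial.aeval T p) ((T ^ n) x) = 0 := by rw [hpT]; simp
  rw [Polynomial.aeval_eq_sum_range, Finset.sum_range_succ, hp.coeff_natDegree, one_smul] at h1
  have h2 := congrArg φ h1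
  rw [LinearMap.add_apply, LinearMap.sum_apply, map_add, map_sum, map_zero,
    ← Module.End.mul_apply, ← pow_add] at h2
  have h3 : ∀ i, φ ((p.coeff i • T ^ i) ((T ^ n) x)) = p.coeff i * φ ((T ^ (n + i)) x) := by
    intro i
    rw [LinearMap.smul_apply, map_smul, smul_eq_mul, ← Module.End.mul_apply, ← pow_add,
      add_comm i n]
  simp only [h3] at h2
  rw [← Fin.sum_univ_eq_sum_range (fun i => p.coeff i * φ ((T ^ (n + i)) x))] at h2
  simp only [neg_mul, Finset.sum_neg_distrib]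
  rw [add_comm n]
  exact eq_neg_of_add_eq_zero_right h2

theorem IsLinRec.exists_matrix {s : ℕ → ℤ} (hs : IsLinRec s) :
    ∃ (n : ℕ) (C : Matrix (Fin n) (Fin n) ℤ) (x f : Fin n → ℤ),
      ∀ k, f ⬝ᵥ (C ^ k *ᵥ x) = s k := by
  obtain ⟨E, hE⟩ := hs
  obtain ⟨n, a⟩ := E
  rcases Nat.eq_zero_or_pos n with hn | hn
  · subst hn
    refine ⟨0, 0, 0, 0, fun k => ?_⟩
    have := hE k
    simp at this
    simp [this]
  · -- the companion matrix
    let C : Matrix (Fin n) (Fin n) ℤ := fun i j =>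
      if h : (i : ℕ) + 1 < n then (if (j : ℕ) = i + 1 then 1 else 0) else a j
    let X : ℕ → Fin n → ℤ := fun k i => s (k + i)
    have hC : ∀ k, C *ᵥ X k = X (k + 1) := by
      intro k
      funext i
      simp only [mulVec, dotProduct, C, X]
      by_cases h : (i : ℕ) + 1 < n
      · simp only [h, dite_true]
        rw [Finset.sum_eq_single ⟨(i : ℕ) + 1, h⟩]
        · simp; congr 1; ring
        · intro j _ hj
          have : (j : ℕ) ≠ i + 1 := fun h' => hj (Fin.ext h')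
          simp [this]
        · simp
      · simp only [h, dite_false]
        have hi : (i : ℕ) + 1 = n := by omega
        have h1 := hE k
        simp only at h1
        rw [show k + 1 + (i : ℕ) = k + n by omega, h1]
    have hCk : ∀ k, C ^ k *ᵥ X 0 = X k := by
      intro k
      induction k with
      | zero => simp
      | succ k ih => rw [pow_succ', ← mulVec_mulVec, ih, hC]
    refine ⟨n, C, X 0, Pi.single ⟨0, hn⟩ 1, fun k => ?_⟩
    rw [hCk, single_one_dotProduct]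
    simp [X]

/-! ### The sequences of a Seifert matrix are linearly recurrent -/

section necessity

variable {ι : Type*} [Fintype ι] [DecidableEq ι]

theorem gammaSeq_isLinRec (V : Matrix ι ι ℤ) (v w : ι → ℤ) : IsLinRec (gammaSeq V v w) := by
  let T : (ι → ℤ) →ₗ[ℤ] (ι → ℤ) := Matrix.toLin' (V * (V - Vᵀ)⁻¹)
  let φ : (ι → ℤ) →ₗ[ℤ] ℤ := (dotProductBilin ℤ ℤ).flip w ∘ₗ Matrix.toLin' ((V - Vᵀ)⁻¹)
  have h : gammaSeq V v w = fun k => φ ((T ^ k) v) := by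
    funext k
    simp only [gammaSeq, curve, T, φ, ← Matrix.toLin'_pow, LinearMap.comp_apply,
      Matrix.toLin'_apply, Matrix.mulVec_mulVec]
    rfl
  rw [h]
  exact exists_recurrence_of_endo T φ v

theorem betaSeq_isLinRec (V : Matrix ι ι ℤ) (v : ι → ℤ) : IsLinRec (betaSeq V v) := by
  let M : Matrix ι ι ℤ := V * (V - Vᵀ)⁻¹
  let W : Matrix ι ι ℤ := ((V - Vᵀ)⁻¹)ᵀ * V * (V - Vᵀ)⁻¹
  let T : Matrix ι ι ℤ →ₗ[ℤ] Matrix ι ι ℤ := LinearMap.mulLeft ℤ M ∘ₗ LinearMap.mulRight ℤ Mᵀ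
  let φ : Matrix ι ι ℤ →ₗ[ℤ] ℤ := Matrix.traceLinearMap ι ℤ ℤ ∘ₗ LinearMap.mulLeft ℤ W
  have hT : ∀ k, (T ^ k) (vecMulVec v v) = vecMulVec (M ^ k *ᵥ v) (M ^ k *ᵥ v) := by
    intro k
    induction k with
    | zero => simp
    | succ k ih =>
      rw [pow_succ', Module.End.mul_apply, ih]
      simp only [T, LinearMap.comp_apply, LinearMap.mulLeft_apply, LinearMap.mulRight_apply]
      rw [vecMulVec_mul, mul_vecMulVec, vecMul_transpose, mulVec_mulVec, pow_succ']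
  have h : betaSeq V v = fun k => φ ((T ^ k) (vecMulVec v v)) := by
    funext k
    simp only [hT, φ, LinearMap.comp_apply, LinearMap.mulLeft_apply, Matrix.traceLinearMap_apply,
      mul_vecMulVec, trace_vecMulVec]
    simp only [betaSeq, curve, W, M]
    rw [dotProduct_comm _ ((V * (V - Vᵀ)⁻¹) ^ k *ᵥ v)]
    simp only [← mulVec_mulVec]
    rw [dotProduct_mulVec _ ((V - Vᵀ)⁻¹)ᵀ, vecMul_transpose]
  rw [h]
  exact exists_recurrence_of_endo T φ _

end necessity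

/-! ### Realization -/

section realization

variable {ι κ : Type*} [Fintype ι] [DecidableEq ι] [Fintype κ] [DecidableEq κ]

theorem curve_eq {V P : Matrix ι ι ℤ} (h : P * (V - Vᵀ) = 1) (v : ι → ℤ) (k : ℕ) :
    curve V v k = (P * V) ^ k *ᵥ (P *ᵥ v) := by
  have h1 : (V - Vᵀ)⁻¹ = P := inv_eq_left_inv h
  unfold curve
  rw [h1, mulVec_mulVec]
  congr 1
  induction k with
  | zero => simp
  | succ k ih => rw [pow_succ, pow_succ, ← mul_assoc, ih]; simp only [mul_assoc]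

/-- `(V, v, w)` realizes the triple of sequences `(b, c, g)`. -/
def Realizes (V : Matrix ι ι ℤ) (v w : ι → ℤ) (b c g : ℕ → ℤ) : Prop :=
  IsUnit (V - Vᵀ).det ∧ betaSeq V v = b ∧ betaSeq V w = c ∧ gammaSeq V v w = g

omit [Fintype ι] [DecidableEq ι] [Fintype κ] [DecidableEq κ] in
theorem sub_transpose_fromBlocks (V₁ : Matrix ι ι ℤ) (V₂ : Matrix κ κ ℤ) :
    fromBlocks V₁ 0 0 V₂ - (fromBlocks V₁ 0 0 V₂)ᵀ =
      fromBlocks (V₁ - V₁ᵀ) 0 0 (V₂ - V₂ᵀ) := by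
  ext i j
  rcases i with i | i <;> rcases j with j | j <;> simp

theorem curve_fromBlocks {V₁ : Matrix ι ι ℤ} {V₂ : Matrix κ κ ℤ}
    (h₁ : IsUnit (V₁ - V₁ᵀ).det) (h₂ : IsUnit (V₂ - V₂ᵀ).det) (v₁ : ι → ℤ) (v₂ : κ → ℤ) (k : ℕ) :
    curve (fromBlocks V₁ 0 0 V₂) (Sum.elim v₁ v₂) k = Sum.elim (curve V₁ v₁ k) (curve V₂ v₂ k) := by
  have e₁ := nonsing_inv_mul _ h₁
  have e₂ := nonsing_inv_mul _ h₂
  have hP : fromBlocks (V₁ - V₁ᵀ)⁻¹ 0 0 (V₂ - V₂ᵀ)⁻¹ *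
      (fromBlocks V₁ 0 0 V₂ - (fromBlocks V₁ 0 0 V₂)ᵀ) = 1 := by
    rw [sub_transpose_fromBlocks, fromBlocks_multiply, e₁, e₂]
    simp
  rw [curve_eq hP, curve_eq e₁, curve_eq e₂, fromBlocks_multiply, fromBlocks_mulVec]
  simp only [mul_zero, zero_mul, add_zero, zero_add, Sum.elim_comp_inl, Sum.elim_comp_inr,
    zero_mulVec]
  generalize (V₁ - V₁ᵀ)⁻¹ * V₁ = M₁
  generalize (V₂ - V₂ᵀ)⁻¹ * V₂ = M₂
  generalize (V₁ - V₁ᵀ)⁻¹ *ᵥ v₁ = x₁
  generalize (V₂ - V₂ᵀ)⁻¹ *ᵥ v₂ = x₂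
  induction k with
  | zero => simp
  | succ k ih =>
    rw [pow_succ', ← mulVec_mulVec, ih, fromBlocks_mulVec, pow_succ', pow_succ', ← mulVec_mulVec,
      ← mulVec_mulVec]
    simp

theorem Realizes.add {V₁ : Matrix ι ι ℤ} {V₂ : Matrix κ κ ℤ} {v₁ w₁ : ι → ℤ} {v₂ w₂ : κ → ℤ}
    {b₁ c₁ g₁ b₂ c₂ g₂ : ℕ → ℤ} (h₁ : Realizes V₁ v₁ w₁ b₁ c₁ g₁)
    (h₂ : Realizes V₂ v₂ w₂ b₂ c₂ g₂) :
    Realizes (fromBlocks V₁ 0 0 V₂) (Sum.elim v₁ v₂) (Sum.elim w₁ w₂)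
      (b₁ + b₂) (c₁ + c₂) (g₁ + g₂) := by
  obtain ⟨d₁, hb₁, hc₁, hg₁⟩ := h₁
  obtain ⟨d₂, hb₂, hc₂, hg₂⟩ := h₂
  have hβ : ∀ (x₁ : ι → ℤ) (x₂ : κ → ℤ), betaSeq (fromBlocks V₁ 0 0 V₂) (Sum.elim x₁ x₂) =
      betaSeq V₁ x₁ + betaSeq V₂ x₂ := by
    intro x₁ x₂
    funext k
    simp only [betaSeq, curve_fromBlocks d₁ d₂, fromBlocks_mulVec, Pi.add_apply]
    simp [dotProduct, Fintype.sum_sum_type]
  refine ⟨?_, ?_, ?_, ?_⟩
  · rw [sub_transpose_fromBlocks, det_fromBlocks_zero₂₁]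
    exact d₁.mul d₂
  · rw [hβ, hb₁, hb₂]
  · rw [hβ, hc₁, hc₂]
  · funext k
    simp only [gammaSeq, curve_fromBlocks d₁ d₂, ← hg₁, ← hg₂, Pi.add_apply]
    simp [dotProduct, Fintype.sum_sum_type]

theorem submatrix_pow_equiv (e : κ ≃ ι) (M : Matrix ι ι ℤ) (k : ℕ) :
    (M.submatrix e e) ^ k = (M ^ k).submatrix e e := by
  induction k with
  | zero => simp
  | succ k ih => rw [pow_succ, pow_succ, ih, submatrix_mul_equiv]

theorem curve_reindex (e : κ ≃ ι) (V : Matrix ι ι ℤ) (x : ι → ℤ) (k : ℕ) :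
    curve (V.submatrix e e) (x ∘ e) k = curve V x k ∘ e := by
  unfold curve
  rw [transpose_submatrix, show V.submatrix e e - Vᵀ.submatrix e e = (V - Vᵀ).submatrix e e from rfl,
    inv_submatrix_equiv, submatrix_mul_equiv, submatrix_pow_equiv, submatrix_mul_equiv,
    submatrix_mulVec_equiv]
  congr 2
  funext i
  simp

/-- Reindexing. -/
theorem Realizes.reindex (e : κ ≃ ι) {V : Matrix ι ι ℤ} {v w : ι → ℤ} {b c g : ℕ → ℤ}
    (h : Realizes V v w b c g) :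
    Realizes (V.submatrix e e) (v ∘ e) (w ∘ e) b c g := by
  obtain ⟨d, rfl, rfl, rfl⟩ := h
  have hβ : ∀ x : ι → ℤ, betaSeq (V.submatrix e e) (x ∘ e) = betaSeq V x := by
    intro x
    funext k
    simp only [betaSeq, curve_reindex, submatrix_mulVec_equiv]
    rw [← comp_equiv_symm_dotProduct]
    congr 1
    · funext i; simp
    · congr 1; funext i; simp
  refine ⟨?_, hβ v, hβ w, ?_⟩
  · rw [transpose_submatrix,
      show V.submatrix e e - Vᵀ.submatrix e e = (V - Vᵀ).submatrix e e from rfl,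
      det_submatrix_equiv_self]
    exact d
  · funext k
    simp only [gammaSeq, curve_reindex]
    rw [← comp_equiv_symm_dotProduct]
    congr 1
    funext i; simp

/-- The basic Seifert matrix attached to a square matrix `D`. -/
def hyp (D : Matrix ι ι ℤ) : Matrix (ι ⊕ ι) (ι ⊕ ι) ℤ := fromBlocks 0 (-(1 - D)ᵀ) D 0

theorem hyp_inv (D : Matrix ι ι ℤ) :
    (fromBlocks 0 1 (-1) 0 : Matrix (ι ⊕ ι) (ι ⊕ ι) ℤ) * (hyp D - (hyp D)ᵀ) = 1 := by
  have : hyp D - (hyp D)ᵀ = fromBlocks 0 (-1) 1 0 := by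
    ext i j
    rcases i with i | i <;> rcases j with j | j <;> simp [hyp, Matrix.one_apply, eq_comm]
  rw [this, fromBlocks_multiply]
  simp

theorem isUnit_det_hyp (D : Matrix ι ι ℤ) : IsUnit (hyp D - (hyp D)ᵀ).det :=
  isUnit_det_of_left_inverse (hyp_inv D)

theorem curve_hyp (D : Matrix ι ι ℤ) (p q : ι → ℤ) (k : ℕ) :
    curve (hyp D) (Sum.elim p q) k =
      Sum.elim (D ^ k *ᵥ q) (-(((1 - D) ^ k)ᵀ *ᵥ p)) := by
  rw [curve_eq (hyp_inv D)]
  have h1 : (fromBlocks 0 1 (-1) 0 : Matrix (ι ⊕ ι) (ι ⊕ ι) ℤ) * hyp D =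
      fromBlocks D 0 0 (1 - D)ᵀ := by
    rw [hyp, fromBlocks_multiply]; simp
  have h2 : (fromBlocks 0 1 (-1) 0 : Matrix (ι ⊕ ι) (ι ⊕ ι) ℤ) *ᵥ (Sum.elim p q) =
      Sum.elim q (-p) := by
    rw [fromBlocks_mulVec]; simp [neg_mulVec]
  rw [h1, h2]
  induction k with
  | zero => simp
  | succ k ih =>
    rw [pow_succ', ← mulVec_mulVec, ih, fromBlocks_mulVec, Sum.elim_comp_inl, Sum.elim_comp_inr,
      zero_mulVec, zero_mulVec, add_zero, zero_add, mulVec_neg, mulVec_mulVec, mulVec_mulVec,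
      ← transpose_mul, ← pow_succ, ← pow_succ']

theorem betaSeq_hyp (D : Matrix ι ι ℤ) (p q : ι → ℤ) (k : ℕ) :
    betaSeq (hyp D) (Sum.elim p q) k = p ⬝ᵥ ((D * (1 - D)) ^ k * (1 - 2 * D)) *ᵥ q := by
  have hcomm : Commute D (1 - D) := (Commute.one_right D).sub_right (Commute.refl D)
  rw [betaSeq, curve_hyp, hyp, fromBlocks_mulVec, Sum.elim_comp_inl, Sum.elim_comp_inr,
    zero_mulVec, zero_mulVec, add_zero, zero_add, neg_mulVec, mulVec_neg, neg_neg, mulVec_mulVec,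
    ← transpose_mul, sumElim_dotProduct_sumElim, neg_dotProduct, mulVec_transpose,
    mulVec_transpose, dotProduct_comm _ (p ᵥ* _), ← dotProduct_mulVec, ← dotProduct_mulVec,
    ← dotProduct_neg, ← dotProduct_add, mulVec_mulVec, mulVec_mulVec, mulVec_mulVec,
    ← neg_mulVec, ← add_mulVec]
  congr 2
  rw [hcomm.mul_pow, (hcomm.pow_pow k k).eq]
  have e1 : (1 - D) ^ k * (1 - D) * D ^ k = (1 - D) ^ k * D ^ k * (1 - D) := by
    rw [mul_assoc, (hcomm.symm.pow_right k).eq, ← mul_assoc]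
  have e2 : (1 - D) ^ k * D * D ^ k = (1 - D) ^ k * D ^ k * D := by
    rw [mul_assoc, ((Commute.refl D).pow_right k).eq, ← mul_assoc]
  rw [e1, e2]
  noncomm_ring

theorem gammaSeq_hyp (D : Matrix ι ι ℤ) (p q p' q' : ι → ℤ) (k : ℕ) :
    gammaSeq (hyp D) (Sum.elim p q) (Sum.elim p' q') k =
      (D ^ k *ᵥ q) ⬝ᵥ p' - (((1 - D) ^ k)ᵀ *ᵥ p) ⬝ᵥ q' := by
  rw [gammaSeq, curve_hyp, sumElim_dotProduct_sumElim, neg_dotProduct, ← sub_eq_add_neg]

theorem exists_gamma {g : ℕ → ℤ} (hg : IsLinRec g) :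
    ∃ (n : ℕ) (V : Matrix (Fin n ⊕ Fin n) (Fin n ⊕ Fin n) ℤ) (v w : Fin n ⊕ Fin n → ℤ),
      Realizes V v w 0 0 g := by
  obtain ⟨n, C, x, f, h⟩ := hg.exists_matrix
  refine ⟨n, hyp C, Sum.elim 0 x, Sum.elim f 0, isUnit_det_hyp C, ?_, ?_, ?_⟩
  · funext k
    rw [betaSeq_hyp]; simp
  · funext k
    rw [betaSeq_hyp]; simp
  · funext k
    rw [gammaSeq_hyp, ← h k, dotProduct_comm]
    simp

theorem exists_beta {b : ℕ → ℤ} (hb : IsLinRec b) :
    ∃ (n : ℕ) (V : Matrix ((Fin n ⊕ Fin n) ⊕ (Fin n ⊕ Fin n)) ((Fin n ⊕ Fin n) ⊕ (Fin n ⊕ Fin n)) ℤ)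
      (v : (Fin n ⊕ Fin n) ⊕ (Fin n ⊕ Fin n) → ℤ),
      Realizes V v 0 b 0 0 ∧ Realizes V 0 v 0 b 0 := by
  obtain ⟨n, C, x, f, h⟩ := hb.exists_matrix
  let D : Matrix (Fin n ⊕ Fin n) (Fin n ⊕ Fin n) ℤ := fromBlocks 0 (-C) 1 1
  let v : (Fin n ⊕ Fin n) ⊕ (Fin n ⊕ Fin n) → ℤ := Sum.elim (Sum.elim f 0) (Sum.elim x 0)
  have hD : D * (1 - D) = fromBlocks C 0 0 C := by
    have : (1 : Matrix (Fin n ⊕ Fin n) (Fin n ⊕ Fin n) ℤ) - D = fromBlocks 1 C (-1) 0 := by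
      rw [sub_eq_iff_eq_add, ← fromBlocks_one]
      simp only [D]
      rw [fromBlocks_add]
      simp
    rw [this]
    simp only [D]
    rw [fromBlocks_multiply]
    simp
  have hv : betaSeq (hyp D) v = b := by
    funext k
    have e3 : ((1 : Matrix (Fin n ⊕ Fin n) (Fin n ⊕ Fin n) ℤ) - 2 * D) *ᵥ Sum.elim x 0 =
        Sum.elim x (-2 • x) := by
      have e4 : D *ᵥ Sum.elim x (0 : Fin n → ℤ) = Sum.elim (0 : Fin n → ℤ) x := by
        rw [fromBlocks_mulVec]; simp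
      rw [sub_mulVec, one_mulVec, two_mul, add_mulVec, e4]
      funext i
      rcases i with i | i
      · simp
      · simp; ring
    rw [betaSeq_hyp, hD, fromBlocks_diagonal_pow, ← h k, ← mulVec_mulVec, e3, fromBlocks_mulVec,
      sumElim_dotProduct_sumElim]
    simp
  have h0 : betaSeq (hyp D) 0 = 0 := by
    funext k
    simp [betaSeq, curve]
  refine ⟨n, hyp D, v, ⟨isUnit_det_hyp D, hv, h0, ?_⟩, isUnit_det_hyp D, h0, hv, ?_⟩
  · funext k
    simp [gammaSeq]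
  · funext k
    simp [gammaSeq, curve]

end realization

/-- **Classification of the realizable triples at the level of Seifert matrices.**
Three integer sequences `b, c, g` are the sequences `β(L_1, L_2)`, `β(L_1, L_3)`, `γ(L, G)`
computed from some Seifert matrix `V` of size `2h` (an integral matrix with `V - Vᵀ` invertible
over `ℤ`) and some coordinate vectors `v₂`, `v₃` if and only if each of them satisfies a linear
recurrence with constant integer coefficients. -/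
theorem result (b c g : ℕ → ℤ) :
    (∃ (h : ℕ) (V : Matrix (Fin (2 * h)) (Fin (2 * h)) ℤ) (v₂ v₃ : Fin (2 * h) → ℤ),
      IsUnit (V - Vᵀ).det ∧ betaSeq V v₂ = b ∧ betaSeq V v₃ = c ∧ gammaSeq V v₂ v₃ = g) ↔
    IsLinRec b ∧ IsLinRec c ∧ IsLinRec g := by
  constructor
  · rintro ⟨h, V, v₂, v₃, -, rfl, rfl, rfl⟩
    exact ⟨betaSeq_isLinRec V v₂, betaSeq_isLinRec V v₃, gammaSeq_isLinRec V v₂ v₃⟩
  · rintro ⟨hb, hc, hg⟩
    obtain ⟨n₁, V₁, v₁, h₁, -⟩ := exists_beta hb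
    obtain ⟨n₂, V₂, v₂, -, h₂⟩ := exists_beta hc
    obtain ⟨n₃, V₃, v₃, w₃, h₃⟩ := exists_gamma hg
    have h := (h₁.add h₂).add h₃
    simp only [add_zero, zero_add] at h
    have hcard : Fintype.card (Fin (2 * (2 * n₁ + 2 * n₂ + n₃))) = Fintype.card
        ((((Fin n₁ ⊕ Fin n₁) ⊕ (Fin n₁ ⊕ Fin n₁)) ⊕ ((Fin n₂ ⊕ Fin n₂) ⊕ (Fin n₂ ⊕ Fin n₂))) ⊕
          (Fin n₃ ⊕ Fin n₃)) := by
      simp only [Fintype.card_fin, Fintype.card_sum]
      ring
    have h' := h.reindex (Fintype.equivOfCardEq hcard)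
    exact ⟨_, _, _, _, h'⟩

end Pool.Agent.Results.MP_61c315_gt.SeifertTriples
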